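import Pool.Agent.Helper28.ML.HF
import Pool.Agent.Helper71.ML.Sel

/-!
# Project ML, block HF, without hypothesis
-/

namespace Pool.Agent.ML

theorem hf : StmtHF := hf_of sel

end Pool.Agent.ML
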