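import Pool.Agent.Helper45.ML.Defs
import Pool.Agent.SC.CoverLevels
import Pool.Agent.Helper17.FF.PicDiv
import Pool.Agent.Helper28.M.Z

/-!
# Project ML, block Z: `ℓ`-th roots of functions with divisor `b - b'` modulo `ℓ`
-/

set_option autoImplicit false

namespace Pool.Agent.ML

open VC IntermediateField NumberField IsDedekindDomain Pool.Agent.SC
open Pool.Agent.L (Inert L0 MM SamePlace OverV)
open Pool.Agent.LN (Geo Act HasSec GoodCurve IsRam DecPt)
open Pool.Agent.M (UR NN Moves OverPl inL0)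

namespace Zaux

section

variable {E U : Type} [Field E] [IsAlgClosed E] [Field U] [Algebra E U]
  {L M : IntermediateField E U}

/-- Below an arbitrary place `Q` of `M` an order divisible by `n` stays divisible by `n`. -/
theorem dvd_ord (hLM : L ≤ M) (hL : IsFunctionField E L) (hM : IsFunctionField E M)
    (Q : Place E M) {g : L} (hg0 : g ≠ 0) (n : ℕ)
    (h : ∀ P : Place E L, P.ring = Q.ring.comap (algebraMap L U |>.codRestrict M.toSubfield
      fun x => hLM x.2) → (n : ℤ) ∣ ord P.ring g) :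
    (n : ℤ) ∣ ord Q.ring (⟨g, hLM g.2⟩ : M) := by
  set i : L →+* M := (algebraMap L U).codRestrict M.toSubfield fun x => hLM x.2 with hi
  have hi0 : ∀ {x : L}, x ≠ 0 → i x ≠ 0 := fun hx => (_root_.map_ne_zero i).2 hx
  change (n : ℤ) ∣ ord Q.ring (i g)
  by_cases htop : Q.ring.comap i = ⊤
  · have hmem : ∀ x : L, i x ∈ Q.ring := by
      intro x
      have : x ∈ Q.ring.comap i := by rw [htop]; trivial
      exact this
    rw [_root_.Pool.Agent.M.Zaux.ord_zero_of_mem hM Q (hi0 hg0) (hmem g) (by rw [← map_inv₀]; exact hmem _)]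
    exact dvd_zero _
  · let P : Place E L :=
      { ring := Q.ring.comap i
        algebraMap_mem := fun c => Q.algebraMap_mem c
        ne_top := htop }
    obtain ⟨m, hm⟩ := h P rfl
    obtain ⟨π, hπ0, hπ⟩ := FF.exists_ord_eq hL P m
    have hx0 : g / π ^ n ≠ 0 := div_ne_zero hg0 (pow_ne_zero n hπ0)
    have h1 : ord P.ring (g / π ^ n) = 0 := by
      rw [FF.ord_div hL P hg0 (pow_ne_zero n hπ0), FF.ord_pow hL P hπ0, hπ, hm]
      ring
    have h2 : g / π ^ n ∈ P.ring := (FF.ord_nonneg_iff hL P hx0).1 h1.ge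
    have h3 : (g / π ^ n)⁻¹ ∈ P.ring := (FF.ord_nonneg_iff hL P (inv_ne_zero hx0)).1 (by
      rw [FF.ord_inv hL P hx0, h1]; simp)
    have h4 : ord Q.ring (i (g / π ^ n)) = 0 :=
      _root_.Pool.Agent.M.Zaux.ord_zero_of_mem hM Q (hi0 hx0) h2 (by rw [← map_inv₀]; exact h3)
    rw [map_div₀, map_pow, FF.ord_div hM Q (hi0 hg0) (pow_ne_zero n (hi0 hπ0)),
      FF.ord_pow hM Q (hi0 hπ0)] at h4
    exact ⟨ord Q.ring (i π), by linarith⟩

end

end Zaux

open Zaux in
/-- **Block Z.** -/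
theorem z : StmtZ := by
  intro k K0 E U _ _ _ _ _ _ _ _ _ _ _ _ n ℓ h r hn hℓ hℓn _ G b b' hb hb' hbb
  have hcl := G.clE
  have hck : CharZero E := charZero_of_injective_algebraMap (algebraMap k E).injective
  have hL := G.ff
  have hM := G.cover.ff
  have hℓp : Prime (ℓ : ℤ) := Nat.prime_iff_prime_int.1 hℓ
  -- a function with divisor `b - b'` modulo `ℓ`
  obtain ⟨D', c, hc0, hc⟩ := FF.picDiv hL ℓ hℓ.pos
    (Finsupp.single b 1 - Finsupp.single b' 1) (by
      classical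
      rw [Finsupp.sum_sub_index (fun _ _ _ => rfl), Finsupp.sum_single_index rfl,
        Finsupp.sum_single_index rfl, sub_self])
  have hcb : (ℓ : ℤ) ∣ ord b.ring c - 1 := by
    have h1 := hc b
    classical
    rw [Finsupp.sub_apply, Finsupp.single_apply, Finsupp.single_apply, if_pos rfl,
      if_neg (fun h2 => hbb h2.symm)] at h1
    exact ⟨-D' b, by linear_combination -h1⟩
  have hcb' : (ℓ : ℤ) ∣ ord b'.ring c + 1 := by
    have h1 := hc b'
    classical
    rw [Finsupp.sub_apply, Finsupp.single_apply, Finsupp.single_apply, if_neg hbb,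
      if_pos rfl] at h1
    exact ⟨-D' b', by linear_combination -h1⟩
  have hcP : ∀ P : Place E (L0 E K0 (U := U)), P ≠ b → P ≠ b' → (ℓ : ℤ) ∣ ord P.ring c := by
    intro P h2 h3
    have h1 := hc P
    classical
    rw [Finsupp.sub_apply, Finsupp.single_apply, Finsupp.single_apply, if_neg (Ne.symm h2),
      if_neg (Ne.symm h3)] at h1
    exact ⟨-D' P, by linear_combination -h1⟩
  -- it becomes an `ℓ`-th power in `U`
  have hLM : L0 E K0 (U := U) ≤ MM E K0 r :=
    IntermediateField.adjoin.mono _ _ _ Set.subset_union_left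
  have hrM : r ∈ MM E K0 r := IntermediateField.subset_adjoin _ _ (Set.mem_union_right _ rfl)
  have hr0 : r ≠ 0 := by
    rintro rfl
    have h2 : 1 < n := hℓ.one_lt.trans_le (Nat.le_of_dvd hn hℓn)
    refine G.rnot 1 one_pos h2 ?_
    rw [pow_one]
    exact zero_mem _
  have hh0 : (inL0 h : L0 E K0 (U := U)) ≠ 0 := by
    intro h0
    have h1 : algebraMap K0 U h = 0 := congrArg Subtype.val h0
    rw [← G.rpow] at h1
    exact pow_ne_zero n hr0 h1
  have hcM : (⟨c, hLM c.2⟩ : MM E K0 r) ≠ 0 := by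
    intro h0
    have h1 : ((⟨c, hLM c.2⟩ : MM E K0 r) : U) = ((0 : MM E K0 r) : U) := by rw [h0]
    exact hc0 (Subtype.ext h1)
  -- the order of `h` is invertible modulo `ℓ` at `b`, `b'`
  have hinv : ∀ P : Place E (L0 E K0 (U := U)), ¬ (ℓ : ℤ) ∣ ord P.ring (inL0 h) →
      ∃ a : ℕ, (ℓ : ℤ) ∣ ord P.ring (c * inL0 h ^ a) := by
    intro P hP
    have h1 : IsCoprime (ord P.ring (inL0 h)) (ℓ : ℤ) :=
      ((Prime.coprime_iff_not_dvd hℓp).2 hP).symm
    obtain ⟨u, v, huv⟩ := h1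
    -- `u * ord h = 1` modulo `ℓ`
    set m := ord P.ring c with hm
    refine ⟨((-u * m) % ℓ).toNat, ?_⟩
    rw [FF.ord_mul hL P hc0 (pow_ne_zero _ hh0), FF.ord_pow hL P hh0]
    have h2 : (((-u * m) % ℓ).toNat : ℤ) = (-u * m) % ℓ :=
      Int.toNat_of_nonneg (Int.emod_nonneg _ (by exact_mod_cast hℓ.ne_zero))
    rw [h2]
    have h3 : (-u * m) % ℓ = -u * m - ℓ * ((-u * m) / ℓ) := by
      have := Int.emod_add_mul_ediv (-u * m) (ℓ : ℤ)
      linarith
    rw [h3]
    refine ⟨v * m - (-u * m) / ℓ * ord P.ring (inL0 h), ?_⟩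
    linear_combination (-m) * huv
  obtain ⟨w, hw⟩ := G.cover.exists_root hM hcM hℓ.pos (fun Q => by
    by_cases hev : ∀ P : Place E (L0 E K0 (U := U)), P.ring = Q.ring.comap
        (algebraMap (L0 E K0 (U := U)) U |>.codRestrict (MM E K0 r).toSubfield
          fun x => hLM x.2) → (ℓ : ℤ) ∣ ord P.ring c
    · exact dvd_ord hLM hL hM Q hc0 ℓ hev
    · push Not at hev
      obtain ⟨P, hP, hP2⟩ := hev
      have hPb : ¬ (ℓ : ℤ) ∣ ord P.ring (inL0 h) := by
        by_cases h1 : P = b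
        · rw [h1]; exact hb
        · by_cases h2 : P = b'
          · rw [h2]; exact hb'
          · exact absurd (hcP P h1 h2) hP2
      obtain ⟨a, ha⟩ := hinv P hPb
      have h1 : (ℓ : ℤ) ∣ ord Q.ring (⟨(c * inL0 h ^ a : L0 E K0 (U := U)),
          hLM (c * inL0 h ^ a).2⟩ : MM E K0 r) := by
        refine dvd_ord hLM hL hM Q (mul_ne_zero hc0 (pow_ne_zero _ hh0)) ℓ fun P' hP' => ?_
        have h2 : P' = P := Place.ext (hP'.trans hP.symm)
        rw [h2]
        exact ha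
      have h2 : (⟨(c * inL0 h ^ a : L0 E K0 (U := U)), hLM (c * inL0 h ^ a).2⟩ : MM E K0 r) =
          ⟨c, hLM c.2⟩ * ((⟨r, hrM⟩ : MM E K0 r) ^ n) ^ a := by
        apply Subtype.ext
        change (c : U) * algebraMap K0 U h ^ a = c * (r ^ n) ^ a
        rw [G.rpow]
      have hrM0 : (⟨r, hrM⟩ : MM E K0 r) ≠ 0 := fun h0 => hr0 (congrArg Subtype.val h0)
      have hrMn : (⟨r, hrM⟩ : MM E K0 r) ^ n ≠ 0 := pow_ne_zero n hrM0
      rw [h2, FF.ord_mul hM Q hcM (pow_ne_zero a hrMn), FF.ord_pow hM Q hrMn,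
        FF.ord_pow hM Q hrM0] at h1
      have h3 : (ℓ : ℤ) ∣ (a : ℤ) * ((n : ℤ) * ord Q.ring (⟨r, hrM⟩ : MM E K0 r)) :=
        Dvd.dvd.mul_left (Dvd.dvd.mul_right (by exact_mod_cast hℓn) _) _
      exact (dvd_add_left h3).1 h1)
  refine ⟨w, ?_, c, hw.symm, hcb, hcb', hcP⟩
  rintro rfl
  apply hcM
  apply Subtype.ext
  rw [← hw]
  simp [hℓ.ne_zero]

end Pool.Agent.ML
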