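import Pool.Agent.Helper45.ML.Defs
import Pool.Agent.Helper13.ML.DefsC
import Pool.Agent.Helper13.HG.Pla
import Pool.Agent.Helper45.HG.Unram
import Pool.Agent.Helper45.HG.Ratio
import Pool.Agent.Helper79.LN.FR

/-!
# Project ML, block HF: finitely many characters of order `ℓ` are unramified outside a finite set
-/

set_option autoImplicit false

namespace Pool.Agent.ML

open VC IntermediateField NumberField IsDedekindDomain Pool.Agent.SC
open Pool.Agent.L (Inert L0 MM SamePlace OverV)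
open Pool.Agent.LN (Geo Act HasSec GoodCurve IsRam DecPt)
open Pool.Agent.HG (Pr nm)

namespace HFaux

section

variable {k E : Type} [Field k] [Field E] [Algebra k E]

/-- the value of a character, in `E` -/
def cv (E : Type) [Field E] [Algebra k E] {ℓ : ℕ} (ξ : rootsOfUnity ℓ k) : E :=
  algebraMap k E ((ξ : kˣ) : k)

theorem cv_one {ℓ : ℕ} : cv E (1 : rootsOfUnity ℓ k) = 1 := by simp [cv]

theorem cv_mul {ℓ : ℕ} (ξ ξ' : rootsOfUnity ℓ k) : cv E (ξ * ξ') = cv E ξ * cv E ξ' := by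
  simp [cv]

theorem cv_pow {ℓ : ℕ} (ξ : rootsOfUnity ℓ k) (i : ℕ) : cv E (ξ ^ i) = cv E ξ ^ i := by
  simp [cv]

theorem cv_pow_l {ℓ : ℕ} (ξ : rootsOfUnity ℓ k) : cv E ξ ^ ℓ = 1 := by
  rw [← cv_pow]
  have h : ξ ^ ℓ = 1 := by
    apply Subtype.ext
    exact ξ.2
  rw [h, cv_one]

theorem cv_inj {ℓ : ℕ} {ξ ξ' : rootsOfUnity ℓ k} (h : cv E ξ = cv E ξ') : ξ = ξ' :=
  Subtype.ext (Units.ext ((algebraMap k E).injective h))

theorem cv_ne {ℓ : ℕ} (ξ : rootsOfUnity ℓ k) : cv E ξ ≠ 0 :=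
  (_root_.map_ne_zero _).2 (Units.ne_zero _)

/-- a continuous character of order `ℓ` of the group of `L` is given by an `ℓ`-th root -/
theorem exists_root [CharZero k] [IsAlgClosed E] [Algebra.IsAlgebraic k E] {ℓ : ℕ}
    (hℓ : ℓ.Prime)
    (L : IntermediateField k E) [FiniteDimensional k L] (χ : L.fixingSubgroup →* rootsOfUnity ℓ k)
    (L' : IntermediateField k E) [FiniteDimensional k L']
    (hL' : ∀ g : L.fixingSubgroup, (∀ x ∈ L', (g : E ≃ₐ[k] E) x = x) → χ g = 1) :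
    ∃ (z : L) (w : E), z ≠ 0 ∧ w ≠ 0 ∧ w ^ ℓ = (z : E) ∧
      ∀ g : L.fixingSubgroup, (g : E ≃ₐ[k] E) w = cv E (χ g) * w := by
  have hclo : IsAlgClosure k E := ⟨inferInstance, inferInstance⟩
  have hnor : Normal k E := IsAlgClosure.normal k E
  have hgal : IsGalois k E := ⟨⟩
  have hcz : CharZero E := charZero_of_injective_algebraMap (algebraMap k E).injective
  by_cases htr : ∀ g, χ g = 1
  · refine ⟨1, 1, one_ne_zero, one_ne_zero, by simp, fun g => ?_⟩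
    rw [htr g, map_one, cv_one, one_mul]
  push Not at htr
  obtain ⟨g₀, hg₀⟩ := htr
  -- the kernel
  let H : Subgroup (E ≃ₐ[k] E) := χ.ker.map L.fixingSubgroup.subtype
  have hmem : ∀ g : L.fixingSubgroup, (g : E ≃ₐ[k] E) ∈ H ↔ χ g = 1 := by
    intro g
    constructor
    · rintro ⟨g', hg', h⟩
      have : g' = g := Subtype.ext h
      rw [← this]
      exact hg'
    · intro h
      exact ⟨g, h, rfl⟩
  have hopen : IsOpen (H : Set (E ≃ₐ[k] E)) := by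
    have h1 : (L ⊔ L').fixingSubgroup ≤ H := by
      intro g hg
      have hgL : g ∈ L.fixingSubgroup := IntermediateField.fixingSubgroup_antitone le_sup_left hg
      refine (hmem ⟨g, hgL⟩).2 (hL' ⟨g, hgL⟩ fun x hx => ?_)
      exact hg ⟨x, (le_sup_right : L' ≤ L ⊔ L') hx⟩
    exact Subgroup.isOpen_mono h1 (IntermediateField.fixingSubgroup_isOpen _)
  have hclosed : IsClosed (H : Set (E ≃ₐ[k] E)) := OpenSubgroup.isClosed ⟨H, hopen⟩
  have hfix := InfiniteGalois.fixingSubgroup_fixedField (k := k) (K := E) ⟨H, hclosed⟩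
  have hg₀H : (g₀ : E ≃ₐ[k] E) ∉ (IntermediateField.fixedField H).fixingSubgroup := by
    intro h
    rw [show (IntermediateField.fixedField H).fixingSubgroup = H from hfix] at h
    exact hg₀ ((hmem _).1 h)
  obtain ⟨x, hx, hgx⟩ : ∃ x : E, (∀ g ∈ H, g x = x) ∧ (g₀ : E ≃ₐ[k] E) x ≠ x := by
    by_contra hcon
    push Not at hcon
    apply hg₀H
    rintro ⟨x, hx⟩
    exact hcon x fun g hg => hx ⟨g, hg⟩
  have hx1 : ∀ g : L.fixingSubgroup, χ g = 1 → (g : E ≃ₐ[k] E) x = x := fun g hg =>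
    hx _ ((hmem g).2 hg)
  -- the root of unity
  set ζ : E := cv E (χ g₀) with hζ
  have hζl : ζ ^ ℓ = 1 := cv_pow_l _
  have hζ1 : ζ ≠ 1 := fun h => hg₀ (cv_inj (h.trans cv_one.symm))
  have hζ0 : ζ ≠ 0 := cv_ne _
  have hprim : IsPrimitiveRoot ζ ℓ := by
    have : Fact ℓ.Prime := ⟨hℓ⟩
    exact IsPrimitiveRoot.iff_orderOf.2 (orderOf_eq_prime hζl hζ1)
  have hprimk : IsPrimitiveRoot (((χ g₀ : kˣ) : k)) ℓ :=
    IsPrimitiveRoot.of_map_of_injective (f := algebraMap k E) hprim (algebraMap k E).injective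
  have hpw : ∀ ξ : rootsOfUnity ℓ k, ∃ i : ℕ, ξ = χ g₀ ^ i := by
    intro ξ
    have h1 : (((ξ : kˣ) : k)) ^ ℓ = 1 := by
      have h2 : ((ξ : kˣ)) ^ ℓ = 1 := ξ.2
      have h3 := congrArg (fun u : kˣ => (u : k)) h2
      simpa using h3
    haveI : NeZero ℓ := ⟨hℓ.ne_zero⟩
    obtain ⟨i, -, hi⟩ := hprimk.eq_pow_of_pow_eq_one h1
    refine ⟨i, Subtype.ext (Units.ext ?_)⟩
    simpa using hi.symm
  -- powers of `g₀`
  have hg₀x : ∀ (h : L.fixingSubgroup), χ h = 1 → ∀ j : ℕ,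
      (h : E ≃ₐ[k] E) (((g₀ : E ≃ₐ[k] E) ^ j) x) = ((g₀ : E ≃ₐ[k] E) ^ j) x := by
    intro h hh j
    have h1 := hx1 ((g₀ ^ j)⁻¹ * h * g₀ ^ j) (by
      rw [map_mul, map_mul, map_inv, hh, mul_one, inv_mul_cancel])
    have h3 := congrArg (((g₀ ^ j : L.fixingSubgroup) : E ≃ₐ[k] E)) h1
    simp only [Subgroup.coe_mul, AlgEquiv.mul_apply, InvMemClass.coe_inv] at h3
    rw [← AlgEquiv.mul_apply, mul_inv_cancel] at h3
    simpa using h3
  have hg₀l : ((g₀ : E ≃ₐ[k] E) ^ ℓ) x = x := by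
    have h1 := hx1 (g₀ ^ ℓ) (by
      rw [map_pow]
      apply Subtype.ext
      exact (χ g₀).2)
    simpa using h1
  -- the resolvents
  let R : ℕ → E := fun i => ∑ j ∈ Finset.range ℓ, (ζ⁻¹) ^ (i * j) * ((g₀ : E ≃ₐ[k] E) ^ j) x
  have hgζ : ∀ g : E ≃ₐ[k] E, g ζ = ζ := fun g => g.commutes _
  have hRg : ∀ i, (g₀ : E ≃ₐ[k] E) (R i) = ζ ^ i * R i := by
    intro i
    let F : ℕ → E := fun j => (ζ⁻¹) ^ (i * j) * ((g₀ : E ≃ₐ[k] E) ^ j) x
    have h1 : ∀ j, (g₀ : E ≃ₐ[k] E) (F j) = ζ ^ i * F (j + 1) := by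
      intro j
      change (g₀ : E ≃ₐ[k] E) ((ζ⁻¹) ^ (i * j) * ((g₀ : E ≃ₐ[k] E) ^ j) x) =
        ζ ^ i * ((ζ⁻¹) ^ (i * (j + 1)) * ((g₀ : E ≃ₐ[k] E) ^ (j + 1)) x)
      rw [map_mul, map_pow, map_inv₀, hgζ, pow_succ' (g₀ : E ≃ₐ[k] E), AlgEquiv.mul_apply,
        mul_add, mul_one, pow_add, ← mul_assoc, mul_left_comm (ζ ^ i), ← mul_pow,
        mul_inv_cancel₀ hζ0, one_pow, mul_one]
    have h2 : F ℓ = F 0 := by
      change (ζ⁻¹) ^ (i * ℓ) * ((g₀ : E ≃ₐ[k] E) ^ ℓ) x = (ζ⁻¹) ^ (i * 0) * ((g₀ : E ≃ₐ[k] E) ^ 0) x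
      rw [mul_comm i, pow_mul, inv_pow, hζl, hg₀l]
      simp
    change (g₀ : E ≃ₐ[k] E) (∑ j ∈ Finset.range ℓ, F j) = ζ ^ i * ∑ j ∈ Finset.range ℓ, F j
    rw [map_sum, Finset.sum_congr rfl (fun j _ => h1 j), ← Finset.mul_sum]
    congr 1
    have h3 := Finset.sum_range_succ' F ℓ
    have h4 := Finset.sum_range_succ F ℓ
    rw [h3, h2] at h4
    exact add_right_cancel h4
  have hRh : ∀ i, ∀ h : L.fixingSubgroup, χ h = 1 → (h : E ≃ₐ[k] E) (R i) = R i := by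
    intro i h hh
    change (h : E ≃ₐ[k] E) (∑ j ∈ Finset.range ℓ, _) = _
    rw [map_sum]
    refine Finset.sum_congr rfl fun j _ => ?_
    rw [map_mul, map_pow, map_inv₀, hgζ, hg₀x h hh]
  obtain ⟨i, hi0, hil, hRi⟩ : ∃ i, 0 < i ∧ i < ℓ ∧ R i ≠ 0 := by
    by_contra hcon
    push Not at hcon
    have h1 : ∑ i ∈ Finset.range ℓ, R i = (ℓ : E) * x := by
      change ∑ i ∈ Finset.range ℓ, ∑ j ∈ Finset.range ℓ, _ = _
      rw [Finset.sum_comm]
      rw [Finset.sum_eq_single 0]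
      · simp
      · intro j hj hj0
        have hj1 : j < ℓ := Finset.mem_range.1 hj
        rw [← Finset.sum_mul]
        have h2 : ∑ i ∈ Finset.range ℓ, (ζ⁻¹) ^ (i * j) = 0 := by
          have h3 : (ζ⁻¹) ^ j ≠ 1 := by
            rw [inv_pow, Ne, inv_eq_one]
            exact hprim.pow_ne_one_of_pos_of_lt hj0 hj1
          have h4 : ∑ i ∈ Finset.range ℓ, (ζ⁻¹) ^ (i * j) =
              ∑ i ∈ Finset.range ℓ, ((ζ⁻¹) ^ j) ^ i :=
            Finset.sum_congr rfl fun i _ => by rw [← pow_mul, mul_comm]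
          rw [h4, geom_sum_eq h3, ← pow_mul, mul_comm j, pow_mul, inv_pow, hζl]
          simp
        rw [h2, zero_mul]
      · intro h
        exact absurd (Finset.mem_range.2 hℓ.pos) h
    have h2 : ∑ i ∈ Finset.range ℓ, R i = R 0 := by
      refine Finset.sum_eq_single 0 ?_ ?_
      · intro i hi hi0
        exact hcon i (Nat.pos_of_ne_zero hi0) (Finset.mem_range.1 hi)
      · intro h
        exact absurd (Finset.mem_range.2 hℓ.pos) h
    have h3 := hRg 0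
    rw [← h2, h1, pow_zero, one_mul, map_mul, map_natCast] at h3
    exact hgx (mul_left_cancel₀ (Nat.cast_ne_zero.2 hℓ.ne_zero) h3)
  obtain ⟨m, hm⟩ : ∃ m, i * m % ℓ = 1 := by
    have h1 : Nat.Coprime i ℓ :=
      (Nat.coprime_comm.1 ((Nat.Prime.coprime_iff_not_dvd hℓ).2 fun h =>
        absurd (Nat.le_of_dvd hi0 h) (not_le.2 hil)))
    obtain ⟨m, hm⟩ := Nat.exists_mul_mod_eq_one_of_coprime h1 hℓ.one_lt
    exact ⟨m, hm.2⟩
  -- the `ℓ`-th root
  set w : E := R i ^ m with hw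
  have hw0 : w ≠ 0 := pow_ne_zero m hRi
  have hg₀w : (g₀ : E ≃ₐ[k] E) w = ζ * w := by
    rw [hw, map_pow, hRg, mul_pow, ← pow_mul]
    congr 1
    rw [← Nat.div_add_mod (i * m) ℓ, hm, pow_add, pow_mul, hζl, one_pow, one_mul, pow_one]
  have hhw : ∀ h : L.fixingSubgroup, χ h = 1 → (h : E ≃ₐ[k] E) w = w := by
    intro h hh
    rw [hw, map_pow, hRh i h hh]
  have hg₀iw : ∀ j : ℕ, ((g₀ : E ≃ₐ[k] E) ^ j) w = ζ ^ j * w := by
    intro j
    induction j with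
    | zero => simp
    | succ j ih =>
      rw [pow_succ', AlgEquiv.mul_apply, ih, map_mul, map_pow, hgζ, hg₀w, pow_succ]
      ring
  have hgw : ∀ g : L.fixingSubgroup, (g : E ≃ₐ[k] E) w = cv E (χ g) * w := by
    intro g
    obtain ⟨j, hj⟩ := hpw (χ g)
    have h1 := hhw ((g₀ ^ j)⁻¹ * g) (by rw [map_mul, map_inv, map_pow, hj, inv_mul_cancel])
    have h3 := congrArg (((g₀ ^ j : L.fixingSubgroup) : E ≃ₐ[k] E)) h1
    simp only [Subgroup.coe_mul, AlgEquiv.mul_apply, InvMemClass.coe_inv] at h3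
    rw [← AlgEquiv.mul_apply, mul_inv_cancel] at h3
    have h4 : (g : E ≃ₐ[k] E) w = ((g₀ : E ≃ₐ[k] E) ^ j) w := by simpa using h3
    rw [h4, hg₀iw, hj, cv_pow]
  -- it is in `L`
  have hwL : w ^ ℓ ∈ L := by
    have h1 : w ^ ℓ ∈ IntermediateField.fixedField L.fixingSubgroup := by
      rintro ⟨g, hg⟩
      change g (w ^ ℓ) = w ^ ℓ
      have h2 := hgw ⟨g, hg⟩
      change g w = _ at h2
      rw [map_pow, h2, mul_pow, cv_pow_l, one_mul]
    rwa [InfiniteGalois.fixedField_fixingSubgroup] at h1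
  refine ⟨⟨w ^ ℓ, hwL⟩, w, ?_, hw0, rfl, hgw⟩
  intro h
  exact pow_ne_zero ℓ hw0 (congrArg Subtype.val h)

/-- the class of `z` determines the character -/
theorem unique_char [CharZero k] {ℓ : ℕ} (hℓ : ℓ.Prime) (hmu : HasMu k ℓ)
    (L : IntermediateField k E) {χ χ' : L.fixingSubgroup →* rootsOfUnity ℓ k}
    {e w w' : E} (hw0 : w ≠ 0) (hw0' : w' ≠ 0) (hw : w ^ ℓ = e) (hw' : w' ^ ℓ = e)
    (h : ∀ g : L.fixingSubgroup, (g : E ≃ₐ[k] E) w = cv E (χ g) * w)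
    (h' : ∀ g : L.fixingSubgroup, (g : E ≃ₐ[k] E) w' = cv E (χ' g) * w') : χ = χ' := by
  obtain ⟨ζ, hζ⟩ := hmu
  have hζE : IsPrimitiveRoot (algebraMap k E ζ) ℓ := hζ.map_of_injective (algebraMap k E).injective
  have h1 : (w' / w) ^ ℓ = 1 := by
    rw [div_pow, hw, hw', div_self]
    rw [← hw]
    exact pow_ne_zero ℓ hw0
  haveI : NeZero ℓ := ⟨hℓ.ne_zero⟩
  obtain ⟨i, -, hi⟩ := hζE.eq_pow_of_pow_eq_one h1
  have h2 : w' = algebraMap k E (ζ ^ i) * w := by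
    rw [map_pow, hi, div_mul_cancel₀ _ hw0]
  ext g
  have h3 : (g : E ≃ₐ[k] E) w' = cv E (χ g) * w' := by
    rw [h2, map_mul, h g, AlgEquiv.commutes]
    ring
  have h4 := (h3.symm.trans (h' g))
  have h5 : χ g = χ' g := cv_inj (mul_right_cancel₀ hw0' h4)
  rw [h5]

end

theorem vz_of_not_isRam {k : Type} [Field k] [NumberField k] {ℓ : ℕ} (hℓ : ℓ ≠ 0) {c : k}
    (hc : c ≠ 0) {v : Pr k} {p : ℕ}
    (hun : v.valuation k (p : k) = WithZero.exp (-1 : ℤ)) (h : ¬ IsRam ℓ v c) :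
    Vz v p ℓ 0 c := by
  unfold IsRam at h
  push Not at h
  obtain ⟨d, hd⟩ := h
  have hd0 : d ≠ 0 := by
    rintro rfl
    rw [map_zero, zero_pow hℓ] at hd
    exact (Valuation.ne_zero_iff _).2 hc hd
  obtain ⟨a, ha⟩ := Pool.Agent.HG.exists_zpow hun hd0
  refine ⟨a, ?_⟩
  have h1 : v.valuation k (c * (p : k) ^ ((ℓ : ℤ) * a - 0)) =
      v.valuation k (d * (p : k) ^ a) ^ ℓ := by
    rw [sub_zero, map_mul, map_mul, hd, mul_pow, map_zpow₀, map_zpow₀, ← zpow_natCast (_ ^ a),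
      ← zpow_mul, mul_comm a]
  rw [h1, ha, one_pow]

section

variable {k E : Type} [Field k] [NumberField k] [Field E] [IsAlgClosed E] [Algebra k E]
  [Algebra.IsAlgebraic k E]

theorem vz_of_unram {ℓ : ℕ} (hℓ : ℓ.Prime) (L : IntermediateField k E) [NumberField L]
    (χ : L.fixingSubgroup →* rootsOfUnity ℓ k)
    {z : L} {w : E} (hz : z ≠ 0) (hw : w ^ ℓ = (z : E))
    (hg : ∀ g : L.fixingSubgroup, (g : E ≃ₐ[k] E) w = cv E (χ g) * w)
    {p : ℕ} {P : Pr L} (hun : P.valuation L (p : L) = WithZero.exp (-1 : ℤ))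
    (hP : ∀ O : ValuationSubring E, OverV (P.under (𝓞 k)) O → ∀ τ : L.fixingSubgroup,
      Inert O (τ : E ≃ₐ[k] E).toRingEquiv → χ τ = 1) : Vz P p ℓ 0 z := by
  apply vz_of_not_isRam hℓ.ne_zero hz hun
  intro hram
  obtain ⟨O, F, p', f', D⟩ := Pool.Agent.LN.fr L E P
  obtain ⟨τ, hτ, hτd⟩ := D.ram ℓ z hℓ.pos hram w hw
  have hOv : OverV (P.under (𝓞 k)) O := by
    intro x
    have h1 := D.above (algebraMap k L x)
    rw [← IsScalarTower.algebraMap_apply k L E] at h1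
    rw [h1]
    exact Pool.Agent.HG.val_le_over rfl
  let τ' : L.fixingSubgroup := (IntermediateField.fixingSubgroupEquiv L).symm τ
  have hτ' : ∀ x : E, (τ' : E ≃ₐ[k] E) x = τ x := fun x => rfl
  have h1 : χ τ' = 1 := hP O hOv τ' ⟨hτ.stab, hτ.res⟩
  have h2 := hg τ'
  rw [h1, hτ', cv_one, one_mul] at h2
  exact hτd h2

end

end HFaux

open HFaux in
/-- **Block HF.** -/
theorem hf_of (hSel : StmtSel) : StmtHF := by
  intro k E _ _ _ _ _ _ ℓ hℓ hmu L hL Bad hBad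
  have hcz : CharZero E := charZero_of_injective_algebraMap (algebraMap k E).injective
  have hNL : NumberField L := NumberField.of_module_finite k L
  obtain ⟨M₁, hM₁, hun⟩ := Pool.Agent.HG.exists_unram L
  -- the norms of the bad primes
  let M₂ : ℕ := ∏ v ∈ hBad.toFinset, nm v
  have hM₂ : M₂ ≠ 0 := Finset.prod_ne_zero_iff.2 fun v _ => (Pool.Agent.HG.nm_pos v).ne'
  have hM₂' : ∀ v ∈ Bad, ∀ p : ℕ, p.Prime → (p : 𝓞 k) ∈ v.asIdeal → p ∣ M₂ := by
    intro v hv p hp hpv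
    obtain ⟨f, hf, hnm⟩ := Pool.Agent.HG.nm_pow v hp hpv
    have h1 : p ∣ nm v := by
      rw [hnm]
      exact dvd_pow_self p (Nat.pos_of_ne_zero hf).ne'
    exact h1.trans (Finset.dvd_prod_of_mem nm (hBad.mem_toFinset.2 hv))
  obtain ⟨F, hF, hFz⟩ := hSel ℓ hℓ k L (⊤ : IntermediateField k L) (M₁ * M₂)
    (mul_ne_zero hM₁ hM₂)
  refine (Set.Finite.biUnion F.finite_toSet (t := fun e : L =>
    {χ : L.fixingSubgroup →* rootsOfUnity ℓ k | ∃ w : E, w ≠ 0 ∧ w ^ ℓ = (e : E) ∧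
      ∀ g : L.fixingSubgroup, (g : E ≃ₐ[k] E) w = cv E (χ g) * w}) ?_).subset ?_
  · intro e _
    apply Set.Subsingleton.finite
    rintro χ ⟨w, hw0, hw, h⟩ χ' ⟨w', hw0', hw', h'⟩
    exact unique_char hℓ hmu L hw0 hw0' hw hw' h h'
  · rintro χ ⟨⟨L', hL'f, hL'⟩, hχ⟩
    obtain ⟨z, w, hz0, hw0, hw, hg⟩ := exists_root hℓ L χ L' hL'
    obtain ⟨e, he, d, -, hed⟩ := hFz z trivial hz0 fun p P hp hpM hpP => by
      refine vz_of_unram hℓ L χ hz0 hw hg (hun p hp (fun h => hpM (h.mul_right _)) P hpP) ?_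
      refine hχ _ fun hbad => hpM ?_
      refine (hM₂' _ hbad p hp ?_).mul_left _
      change algebraMap (𝓞 k) (𝓞 L) (p : 𝓞 k) ∈ P.asIdeal
      rw [map_natCast]
      exact hpP
    have hd0 : d ≠ 0 := by
      rintro rfl
      rw [zero_pow hℓ.ne_zero, mul_zero] at hed
      exact hz0 hed
    have hd0' : (d : E) ≠ 0 := fun h => hd0 (Subtype.ext h)
    refine Set.mem_biUnion (x := e) he ⟨w * (d : E)⁻¹, mul_ne_zero hw0 (inv_ne_zero hd0'), ?_, ?_⟩
    · rw [mul_pow, hw, hed, IntermediateField.coe_mul, IntermediateField.coe_pow, mul_assoc,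
        ← mul_pow, mul_inv_cancel₀ hd0', one_pow, mul_one]
    · intro g
      have h1 : (g : E ≃ₐ[k] E) (d : E) = d := g.2 d
      rw [map_mul, map_inv₀, h1, hg g]
      ring

end Pool.Agent.ML
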